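import Mathlib
import Pool.Agent.Helper78_Biseq.Defs

/-!
# Definitions: countably paracompact and weakly theta-refinable spaces
-/

set_option autoImplicit false

open Set Filter Topology
open Pool.Agent.Helper78_Biseq

namespace Pool.Agent.Helper52_HN

universe v

/-- Every countable open cover has a locally finite open refinement. -/
def CountablyParacompact (Y : Type v) [TopologicalSpace Y] : Prop :=
  ∀ u : ℕ → Set Y, (∀ n, IsOpen (u n)) → ⋃ n, u n = univ →
    ∃ (I : Type v) (w : I → Set Y), (∀ i, IsOpen (w i)) ∧ ⋃ i, w i = univ ∧ LocallyFinite w ∧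
      ∀ i, ∃ n, w i ⊆ u n

/-- Weakly theta-refinable: every open cover has an open refinement `⋃ n, V n` such that every point
is, for some `n`, in at least one and in only finitely many members of `V n`. -/
def WeaklyThetaRefinable (Y : Type v) [TopologicalSpace Y] : Prop :=
  ∀ u : Set (Set Y), (∀ O ∈ u, IsOpen O) → ⋃₀ u = univ →
    ∃ V : ℕ → Set (Set Y), (∀ n, ∀ W ∈ V n, IsOpen W ∧ ∃ O ∈ u, W ⊆ O) ∧
      ∀ y : Y, ∃ n, {W | W ∈ V n ∧ y ∈ W}.Finite ∧ {W | W ∈ V n ∧ y ∈ W}.Nonempty

end Pool.Agent.Helper52_HN
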