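import Mathlib
import Pool.Agent.Helper78_Biseq.Defs

/-!
# The closure class of subsets
-/

set_option autoImplicit false

open Set Filter Topology
open Pool.Agent.Helper78_Biseq

namespace Pool.Agent.Helper52_HN

universe v

/-- The smallest class of subsets of `X` that contains all realcompact subspaces not containing `x`
and all sets whose closure does not contain `x`, and is closed under subsets, countable unions and
relative sums: unions of disjoint families `E i` of members of the class, each `E i` relatively open
in the union, such that every countably complete ultrafilter on the index set is principal. -/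
inductive Tame {X : Type v} [TopologicalSpace X] (x : X) : Set X → Prop
  | real (E : Set X) : x ∉ E → Realcompact E → Tame x E
  | small (E : Set X) : x ∉ closure E → Tame x E
  | mono (E F : Set X) : E ⊆ F → Tame x F → Tame x E
  | union (E : ℕ → Set X) : (∀ n, Tame x (E n)) → Tame x (⋃ n, E n)
  | sum (I : Type v) (E : I → Set X) :
      (∀ W : Ultrafilter I, CountableInterFilter (W : Filter I) → ∃ i, W = pure i) →
      Pairwise (fun i j => Disjoint (E i) (E j)) →
      (∀ i, ∃ O : Set X, IsOpen O ∧ O ∩ (⋃ j, E j) = E i) →
      (∀ i, Tame x (E i)) → Tame x (⋃ i, E i)

end Pool.Agent.Helper52_HN
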