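import Pool.Agent.Helper52_HN.Neg
import Pool.Agent.Helper52_HN.Tame
import Pool.Agent.Helper78_Biseq.Realc

/-!
# Bisequentiality from realcompactness, and conversely
-/

set_option autoImplicit false

open Set Filter Topology
open Pool.Agent.Helper78_Biseq

namespace Pool.Agent.Helper52_HN

universe v

variable {X : Type v} [TopologicalSpace X]

/-- All members of the class are negligible for every ultrafilter which converges to `x`. -/
theorem neg_of_tame [CompletelyNormalSpace X] [T2Space X] {x : X} {U : Ultrafilter X}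
    (hU : (U : Filter X) ≤ 𝓝 x) {E : Set X} (hE : Tame x E) : Neg U E := by
  induction hE with
  | real E hx hr =>
    by_contra hcon
    obtain ⟨y, hy, hUy⟩ := le_nhds_of_realcompact
      (fun _ _ h1 h2 hd => neg_or_of_isClosed h1 h2 hd) hcon hr
    have h1 : y = x := tendsto_nhds_unique (f := id) (l := (U : Filter X)) hUy hU
    exact hx (h1 ▸ hy)
  | small E hx =>
    have h1 : (closure E)ᶜ ∈ 𝓝 x := isClosed_closure.isOpen_compl.mem_nhds hx
    obtain ⟨t, ht, htc, hts⟩ := exists_mem_nhds_isClosed_subset h1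
    refine ⟨fun _ => t, fun _ => hU ht, ?_⟩
    rw [iInter_const, htc.closure_eq, Set.disjoint_left]
    intro z hz hz2
    exact hts hz2 (subset_closure hz)
  | mono E F h _ ih => exact neg_mono h ih
  | union E _ ih => exact neg_iUnion ih
  | sum I E hm hd ho _ ih => exact neg_sum hm hd ho ih

/-- A countable intersection of closures of members of `U` inside `{x}` gives bisequentiality. -/
theorem seq_of_neg [CompactSpace X] {x : X} {U : Ultrafilter X} (h : Neg U ({x}ᶜ : Set X)) :
    ∃ A : ℕ → Set X, Antitone A ∧ (∀ n, A n ∈ U) ∧ ∀ O ∈ 𝓝 x, ∃ n, A n ⊆ O := by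
  obtain ⟨C, hC, hd⟩ := h
  refine ⟨fun n => ⋂ j ∈ Finset.range (n + 1), C j, ?_, ?_, ?_⟩
  · intro n m hnm z hz
    rw [mem_iInter₂] at hz ⊢
    intro j hj
    exact hz j (Finset.mem_range.2 (lt_of_lt_of_le (Finset.mem_range.1 hj) (by omega)))
  · intro n
    exact (biInter_finset_mem _).2 fun j _ => hC j
  · intro O hO
    have hsub : ∀ n, closure (⋂ j ∈ Finset.range (n + 1), C j) ⊆ closure (C n) := fun n =>
      closure_mono (biInter_subset_of_mem (by simp))
    obtain ⟨n, hn⟩ := exists_subset_nhds_of_compactSpace (U := O)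
      (V := fun n => closure (⋂ j ∈ Finset.range (n + 1), C j)) (by
        refine directed_of_isDirected_le (fun n m hnm => closure_mono ?_)
        intro z hz
        rw [mem_iInter₂] at hz ⊢
        intro j hj
        exact hz j (Finset.mem_range.2 (lt_of_lt_of_le (Finset.mem_range.1 hj) (by omega))))
      (fun n => isClosed_closure) (by
        intro z hz
        have h1 : z ∈ ⋂ m, closure (C m) := mem_iInter.2 fun m => hsub m (mem_iInter.1 hz m)
        have h2 : z = x := by
          by_contra hne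
          exact Set.disjoint_left.1 hd (show z ∈ ({x}ᶜ : Set X) from hne) h1
        rw [h2]
        exact hO)
    exact ⟨n, subset_closure.trans hn⟩

/-- Theorem B. -/
theorem bisequential_of_tame [CompactSpace X] [T2Space X] [CompletelyNormalSpace X]
    (h : ∀ x : X, Tame x ({x}ᶜ : Set X)) : Bisequential X :=
  fun _ _ hU => seq_of_neg (neg_of_tame hU (h _))

/-- Theorem A. -/
theorem bisequential_of_hereditarilyRealcompact [CompactSpace X] [T2Space X]
    (hn : ∀ x : X, NormalSpace ({x}ᶜ : Set X)) (h : HereditarilyRealcompact X) :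
    Bisequential X := by
  intro x U hU
  refine seq_of_neg ?_
  by_contra hcon
  have hn' := hn x
  obtain ⟨y, hy, hUy⟩ := le_nhds_of_realcompact
    (fun _ _ h1 h2 hd => neg_or_of_isOpen isOpen_compl_singleton h1 h2 hd) hcon (h _)
  have h1 : y = x := tendsto_nhds_unique (f := id) (l := (U : Filter X)) hUy hU
  exact hy h1

/-- In a normal countably paracompact space a decreasing sequence of closed sets with empty
intersection is captured by a continuous function. -/
theorem exists_large {Y : Type v} [TopologicalSpace Y] [NormalSpace Y]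
    (hcp : CountablyParacompact Y) {B : ℕ → Set Y} (hB : ∀ n, IsClosed (B n)) (ha : Antitone B)
    (he : ⋂ n, B n = ∅) : ∃ f : C(Y, ℝ), ∀ m, ∀ y ∈ B m, (m : ℝ) ≤ f y := by
  classical
  obtain ⟨I, w, wo, wU, wf, ws⟩ := hcp (fun n => (B n)ᶜ) (fun n => (hB n).isOpen_compl) (by
    rw [← compl_iInter, he, compl_empty])
  choose a ha' using ws
  obtain ⟨v, hv⟩ : ∃ v : ℕ → Set Y, ∀ n, v n = ⋃ i : {i : I // a i = n}, w i.1 :=
    ⟨_, fun n => rfl⟩
  have vo : ∀ n, IsOpen (v n) := fun n => by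
    rw [hv]
    exact isOpen_iUnion fun i => wo i.1
  have vs : ∀ n, v n ⊆ (B n)ᶜ := fun n => by
    rw [hv]
    refine iUnion_subset fun i => ?_
    have h1 := ha' i.1
    rwa [i.2] at h1
  have vU : univ ⊆ ⋃ n, v n := by
    intro y _
    obtain ⟨i, hi⟩ := mem_iUnion.1 (wU.symm ▸ mem_univ y : y ∈ ⋃ i, w i)
    refine mem_iUnion.2 ⟨a i, ?_⟩
    rw [hv]
    exact mem_iUnion.2 ⟨⟨i, rfl⟩, hi⟩
  have vf : LocallyFinite v := by
    intro y
    obtain ⟨t, ht, hf⟩ := wf y
    refine ⟨t, ht, (hf.image a).subset ?_⟩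
    rintro n ⟨z, hz, hzt⟩
    rw [hv] at hz
    obtain ⟨i, hi⟩ := mem_iUnion.1 hz
    exact ⟨i.1, ⟨z, hi, hzt⟩, i.2⟩
  obtain ⟨ρ, hρ⟩ := PartitionOfUnity.exists_isSubordinate_of_locallyFinite isClosed_univ v vo vf vU
  have hcont : Continuous fun y => ∑ᶠ n, ρ n y • ((n : ℝ) + 1) :=
    ρ.continuous_finsum_smul (g := fun n _ => (n : ℝ) + 1) fun _ _ _ => continuousAt_const
  refine ⟨⟨_, hcont⟩, ?_⟩
  intro m y hy
  show (m : ℝ) ≤ ∑ᶠ n, ρ n y • ((n : ℝ) + 1)
  rw [← ρ.sum_finsupport_smul_eq_finsum (fun n _ => (n : ℝ) + 1)]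
  have h1 : ∑ n ∈ ρ.finsupport y, ρ n y = 1 := ρ.sum_finsupport (mem_univ y)
  calc (m : ℝ) = ∑ n ∈ ρ.finsupport y, ρ n y * (m : ℝ) := by
        rw [← Finset.sum_mul, h1, one_mul]
    _ ≤ ∑ n ∈ ρ.finsupport y, ρ n y • ((n : ℝ) + 1) := by
        refine Finset.sum_le_sum fun n hn => ?_
        rw [smul_eq_mul]
        have h2 : ρ n y ≠ 0 := by
          rw [ρ.mem_finsupport] at hn
          exact hn
        have h3 : y ∈ v n := hρ n (subset_closure h2)
        have h4 : m ≤ n := by
          by_contra hlt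
          push Not at hlt
          exact vs n h3 (ha hlt.le hy)
        refine mul_le_mul_of_nonneg_left ?_ (ρ.nonneg n y)
        have h5 : (m : ℝ) ≤ n := by exact_mod_cast h4
        linarith

/-- Theorem C, the converse. -/
theorem hereditarilyRealcompact_of_bisequential [CompactSpace X] [T2Space X]
    (hn : ∀ x : X, NormalSpace {z : X // z ≠ x})
    (hcp : ∀ x : X, CountablyParacompact {z : X // z ≠ x}) (h : Bisequential X) :
    HereditarilyRealcompact X := by
  intro Z
  refine ⟨C(Z, ℝ), ev Z, ⟨ev_embedding Z, ?_⟩⟩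
  rw [← closure_subset_iff_isClosed]
  intro φ hφ
  obtain ⟨G, hG, hGφ⟩ := mem_closure_iff_ultrafilter.1 hφ
  have hinj : Function.Injective (ev Z) := (ev_embedding Z).injective
  set U : Ultrafilter Z := G.comap hinj hG with hU
  have hUφ : ∀ g : C(Z, ℝ), Tendsto g U (𝓝 (φ g)) := by
    intro g
    have h1 : Tendsto (ev Z) U (𝓝 φ) := by
      refine le_trans ?_ hGφ
      rw [hU, Ultrafilter.coe_comap]
      exact map_comap_le
    exact (continuous_apply g).continuousAt.tendsto.comp h1
  obtain ⟨x, _, hx⟩ := isCompact_univ.ultrafilter_le_nhds (U.map (Subtype.val : Z → X)) (by simp)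
  have hx' : Tendsto (Subtype.val : Z → X) U (𝓝 x) := hx
  by_cases hxZ : x ∈ Z
  · refine ⟨⟨x, hxZ⟩, ?_⟩
    have h1 : Tendsto (id : Z → Z) U (𝓝 ⟨x, hxZ⟩) := by
      rw [tendsto_subtype_rng]
      exact hx'
    funext g
    have h2 : Tendsto g U (𝓝 (g ⟨x, hxZ⟩)) := by
      have := (g.continuous.continuousAt (x := ⟨x, hxZ⟩)).tendsto.comp h1
      exact this
    exact tendsto_nhds_unique h2 (hUφ g)
  exfalso
  have hZx : ∀ z : Z, (z : X) ≠ x := fun z h => hxZ (h ▸ z.2)
  obtain ⟨A, hA, hAU, hAx⟩ := h x (U.map (Subtype.val : Z → X)) hx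
  have hn' := hn x
  obtain ⟨f, hf⟩ := exists_large (hcp x)
    (B := fun m => closure ((Subtype.val : {z : X // z ≠ x} → X) ⁻¹' A m))
    (fun m => isClosed_closure) (fun m k hmk => closure_mono (preimage_mono (hA hmk))) (by
      rw [Set.eq_empty_iff_forall_notMem]
      intro y hy
      obtain ⟨O, O', hO, hO', hxO, hyO, hd⟩ := t2_separation (Ne.symm y.2)
      obtain ⟨m, hm⟩ := hAx O (hO.mem_nhds hxO)
      obtain ⟨w, hw, hw2⟩ := mem_closure_iff.1 (mem_iInter.1 hy m) (Subtype.val ⁻¹' O')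
        (hO'.preimage continuous_subtype_val) hyO
      exact Set.disjoint_left.1 hd (hm hw2) hw)
  let g : C(Z, ℝ) := ⟨fun z => f ⟨z.1, hZx z⟩, by fun_prop⟩
  obtain ⟨m, hm⟩ := exists_nat_gt (φ g)
  have h1 : ∀ᶠ z in (U : Filter Z), g z < m := (hUφ g).eventually (gt_mem_nhds hm)
  have h2 : ∀ᶠ z in (U : Filter Z), (m : ℝ) ≤ g z := by
    have h3 : (Subtype.val : Z → X) ⁻¹' A m ∈ U := hAU m
    filter_upwards [h3] with z hz
    exact hf m ⟨z.1, hZx z⟩ (subset_closure hz)
  obtain ⟨z, hz1, hz2⟩ := (h1.and h2).exists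
  exact absurd hz1 (not_lt.2 hz2)

end Pool.Agent.Helper52_HN
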