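import Pool.Agent.Helper52_HN.Defs

/-!
# The sigma-ideal of an ultrafilter on a completely normal space
-/

set_option autoImplicit false

open Set Filter Topology
open Pool.Agent.Helper78_Biseq

namespace Pool.Agent.Helper52_HN

universe v

variable {X : Type v} [TopologicalSpace X]

/-- The sets which are disjoint from a countable intersection of closures of members of `U`. -/
def Neg (U : Ultrafilter X) (N : Set X) : Prop :=
  ∃ C : ℕ → Set X, (∀ m, C m ∈ U) ∧ Disjoint N (⋂ m, closure (C m))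

theorem neg_mono {U : Ultrafilter X} {M N : Set X} (h : M ⊆ N) (hN : Neg U N) : Neg U M := by
  obtain ⟨C, h1, h2⟩ := hN
  exact ⟨C, h1, h2.mono_left h⟩

theorem neg_empty {U : Ultrafilter X} : Neg U (∅ : Set X) :=
  ⟨fun _ => univ, fun _ => univ_mem, empty_disjoint _⟩

theorem neg_iUnion {U : Ultrafilter X} {N : ℕ → Set X} (h : ∀ n, Neg U (N n)) :
    Neg U (⋃ n, N n) := by
  choose C h1 h2 using h
  refine ⟨fun m => C (Nat.unpair m).1 (Nat.unpair m).2, fun m => h1 _ _, ?_⟩
  rw [Set.disjoint_left]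
  intro z hz hz2
  obtain ⟨n, hn⟩ := mem_iUnion.1 hz
  refine Set.disjoint_left.1 (h2 n) hn ?_
  rw [mem_iInter] at hz2 ⊢
  intro m
  have h3 := hz2 (Nat.pair n m)
  simp only [Nat.unpair_pair] at h3
  exact h3

theorem neg_union {U : Ultrafilter X} {M N : Set X} (hM : Neg U M) (hN : Neg U N) :
    Neg U (M ∪ N) := by
  have h : ∀ n : ℕ, Neg U (if n = 0 then M else N) := by
    intro n
    split_ifs
    · exact hM
    · exact hN
  refine neg_mono ?_ (neg_iUnion h)
  rintro z (hz | hz)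
  · exact mem_iUnion.2 ⟨0, by simpa using hz⟩
  · exact mem_iUnion.2 ⟨1, by simpa using hz⟩

theorem neg_biUnion {U : Ultrafilter X} {ι : Type*} (J : Finset ι) {N : ι → Set X}
    (h : ∀ i, Neg U (N i)) : Neg U (⋃ i ∈ J, N i) := by
  classical
  induction J using Finset.induction_on with
  | empty => simpa using neg_empty
  | insert i J _ ih =>
    rw [Finset.set_biUnion_insert]
    exact neg_union (h i) ih

/-- An open set which is not in `U` is negligible. -/
theorem neg_of_isOpen {U : Ultrafilter X} {V : Set X} (hV : IsOpen V) (h : V ∉ U) : Neg U V := by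
  refine ⟨fun _ => Vᶜ, fun _ => Ultrafilter.compl_mem_iff_notMem.2 h, ?_⟩
  rw [iInter_const, hV.isClosed_compl.closure_eq]
  exact disjoint_compl_right

/-- One of two separated sets is negligible. -/
theorem neg_or [CompletelyNormalSpace X] {U : Ultrafilter X} {F₁ F₂ : Set X}
    (h1 : Disjoint (closure F₁) F₂) (h2 : Disjoint F₁ (closure F₂)) : Neg U F₁ ∨ Neg U F₂ := by
  obtain ⟨G₁, G₂, o1, o2, s1, s2, hd⟩ := separatedNhds_iff_disjoint.2 (completely_normal h1 h2)
  by_cases hG : G₁ ∈ U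
  · right
    refine neg_mono s2 (neg_of_isOpen o2 fun h => ?_)
    have h3 := inter_mem (f := (U : Filter X)) hG h
    rw [hd.inter_eq] at h3
    exact U.empty_notMem h3
  · left
    exact neg_mono s1 (neg_of_isOpen o1 hG)

/-- Disjoint closed subsets of a subspace are separated. -/
theorem neg_or_of_isClosed [CompletelyNormalSpace X] {U : Ultrafilter X} {E : Set X}
    {F₁ F₂ : Set E} (h1 : IsClosed F₁) (h2 : IsClosed F₂) (hd : Disjoint F₁ F₂) :
    Neg U (Subtype.val '' F₁) ∨ Neg U (Subtype.val '' F₂) := by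
  refine neg_or ?_ ?_
  · rw [Set.disjoint_left]
    rintro z hz ⟨y, hy, rfl⟩
    rw [← closure_subtype, h1.closure_eq] at hz
    exact Set.disjoint_left.1 hd hz hy
  · rw [Set.disjoint_left]
    rintro z ⟨y, hy, rfl⟩ hz
    rw [← closure_subtype, h2.closure_eq] at hz
    exact Set.disjoint_left.1 hd hy hz

/-- The same for a normal open subspace. -/
theorem neg_or_of_isOpen {U : Ultrafilter X} {E : Set X} (hE : IsOpen E) [NormalSpace E]
    {F₁ F₂ : Set E} (h1 : IsClosed F₁) (h2 : IsClosed F₂) (hd : Disjoint F₁ F₂) :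
    Neg U (Subtype.val '' F₁) ∨ Neg U (Subtype.val '' F₂) := by
  obtain ⟨G₁, G₂, o1, o2, s1, s2, hd'⟩ := normal_separation h1 h2 hd
  have o1' := hE.isOpenMap_subtype_val G₁ o1
  have o2' := hE.isOpenMap_subtype_val G₂ o2
  by_cases hG : Subtype.val '' G₁ ∈ U
  · right
    refine neg_mono (image_mono s2) (neg_of_isOpen o2' fun h => ?_)
    have h3 := inter_mem (f := (U : Filter X)) hG h
    rw [← image_inter Subtype.val_injective, hd'.inter_eq, image_empty] at h3
    exact U.empty_notMem h3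
  · left
    exact neg_mono (image_mono s1) (neg_of_isOpen o1' hG)

/-- Every continuous function on a set which is not negligible is constant off a negligible set. -/
theorem exists_value {U : Ultrafilter X} {E : Set X}
    (hsep : ∀ F₁ F₂ : Set E, IsClosed F₁ → IsClosed F₂ → Disjoint F₁ F₂ →
      Neg U (Subtype.val '' F₁) ∨ Neg U (Subtype.val '' F₂))
    (hE : ¬ Neg U E) (f : E → ℝ) (hf : Continuous f) :
    ∃ t : ℝ, Neg U (Subtype.val '' {z | f z ≠ t}) := by
  have hor : ∀ a b : ℝ, a < b → Neg U (Subtype.val '' {z | f z ≤ a}) ∨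
      Neg U (Subtype.val '' {z | b ≤ f z}) := by
    intro a b hab
    refine hsep _ _ (isClosed_le hf continuous_const)
      (isClosed_le continuous_const hf) ?_
    rw [Set.disjoint_left]
    intro z hz hz2
    have h1 : f z ≤ a := hz
    have h2 : b ≤ f z := hz2
    linarith
  obtain ⟨T, hT⟩ : ∃ T : Set ℝ, T = {a | Neg U (Subtype.val '' {z | f z ≤ a})} := ⟨_, rfl⟩
  have hT' : ∀ a, a ∈ T ↔ Neg U (Subtype.val '' {z | f z ≤ a}) := fun a => by rw [hT]; rfl
  have h1 : ∃ a, a ∉ T := by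
    by_contra hcon
    push Not at hcon
    refine hE (neg_mono ?_ (neg_iUnion fun n : ℕ => (hT' n).1 (hcon n)))
    intro z hz
    obtain ⟨n, hn⟩ := exists_nat_ge (f ⟨z, hz⟩)
    exact mem_iUnion.2 ⟨n, ⟨z, hz⟩, hn, rfl⟩
  obtain ⟨a, ha⟩ := h1
  have hbdd : BddAbove T := by
    refine ⟨a, fun b hb => ?_⟩
    by_contra hab
    push Not at hab
    refine ha ((hT' a).2 (neg_mono (image_mono fun z hz => ?_) ((hT' b).1 hb)))
    exact le_trans (show f z ≤ a from hz) hab.le
  have hne : T.Nonempty := by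
    by_contra hcon
    rw [Set.not_nonempty_iff_eq_empty] at hcon
    have h2 : ∀ b : ℝ, Neg U (Subtype.val '' {z | b ≤ f z}) := by
      intro b
      refine (hor (b - 1) b (by linarith)).resolve_left fun h => ?_
      have h3 : b - 1 ∈ T := (hT' _).2 h
      rw [hcon] at h3
      exact h3
    refine hE (neg_mono ?_ (neg_iUnion fun n : ℕ => h2 (-(n : ℝ))))
    intro z hz
    obtain ⟨n, hn⟩ := exists_nat_ge (-f ⟨z, hz⟩)
    refine mem_iUnion.2 ⟨n, ⟨z, hz⟩, ?_, rfl⟩
    show -(n : ℝ) ≤ f ⟨z, hz⟩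
    linarith
  refine ⟨sSup T, ?_⟩
  have h3 : ∀ n : ℕ, Neg U (Subtype.val '' {z : E | f z ≤ sSup T - 1 / ((n : ℝ) + 1)} ∪
      Subtype.val '' {z : E | sSup T + 1 / ((n : ℝ) + 1) ≤ f z}) := by
    intro n
    have hn : (0 : ℝ) < 1 / ((n : ℝ) + 1) := by positivity
    refine neg_union ?_ ?_
    · obtain ⟨b, hb, hlt⟩ := exists_lt_of_lt_csSup hne
        (show sSup T - 1 / ((n : ℝ) + 1) < sSup T by linarith)
      refine neg_mono (image_mono fun z hz => ?_) ((hT' b).1 hb)
      exact le_trans (show f z ≤ sSup T - 1 / ((n : ℝ) + 1) from hz) hlt.le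
    · refine (hor (sSup T + 1 / ((n : ℝ) + 1) / 2) _ (by linarith)).resolve_left fun h => ?_
      have h4 := le_csSup hbdd ((hT' _).2 h)
      linarith
  refine neg_mono ?_ (neg_iUnion h3)
  rintro _ ⟨z, hz, rfl⟩
  have hz' : f z ≠ sSup T := hz
  obtain ⟨n, hn⟩ := exists_nat_one_div_lt (abs_pos.2 (sub_ne_zero.2 hz'))
  refine mem_iUnion.2 ⟨n, ?_⟩
  rcases lt_or_gt_of_ne hz' with h | h
  · left
    refine ⟨z, ?_, rfl⟩
    show f z ≤ sSup T - 1 / ((n : ℝ) + 1)
    rw [abs_of_neg (by linarith)] at hn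
    linarith
  · right
    refine ⟨z, ?_, rfl⟩
    show sSup T + 1 / ((n : ℝ) + 1) ≤ f z
    rw [abs_of_pos (by linarith)] at hn
    linarith

/-- If a realcompact subspace is not negligible, then the ultrafilter converges to a point of it. -/
theorem le_nhds_of_realcompact {U : Ultrafilter X} {E : Set X}
    (hsep : ∀ F₁ F₂ : Set E, IsClosed F₁ → IsClosed F₂ → Disjoint F₁ F₂ →
      Neg U (Subtype.val '' F₁) ∨ Neg U (Subtype.val '' F₂))
    (hE : ¬ Neg U E) (hr : Realcompact E) : ∃ y ∈ E, (U : Filter X) ≤ 𝓝 y := by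
  obtain ⟨ι, e, he⟩ := hr
  have h1 : ∀ i, ∃ t : ℝ, Neg U (Subtype.val '' {z : E | e z i ≠ t}) := fun i =>
    exists_value hsep hE (fun z => e z i) ((continuous_apply i).comp he.continuous)
  choose t ht using h1
  have key : ∀ (J : Finset ι) (M : Set X), Neg U M →
      ¬ ∀ z : E, (z : X) ∈ M ∨ ∃ i ∈ J, e z i ≠ t i := by
    intro J M hM hcon
    refine hE (neg_mono ?_ (neg_union hM (neg_biUnion J ht)))
    intro z hz
    rcases hcon ⟨z, hz⟩ with h | ⟨i, hi, h⟩
    · exact Or.inl h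
    · right
      exact mem_iUnion₂.2 ⟨i, hi, ⟨z, hz⟩, h, rfl⟩
  have h2 : t ∈ range e := by
    by_contra hcon
    obtain ⟨J, u, hu, hJ⟩ := isOpen_pi_iff.1 he.isClosed_range.isOpen_compl t hcon
    refine key J ∅ neg_empty fun z => Or.inr ?_
    by_contra hz
    push Not at hz
    refine hJ (show e z ∈ (J : Set ι).pi u from fun i hi => ?_) (mem_range_self z)
    rw [hz i hi]
    exact (hu i hi).2
  obtain ⟨y, hy⟩ := h2
  refine ⟨y, y.2, ?_⟩
  rw [le_nhds_iff]
  intro V hyV hV
  by_contra hVU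
  have h3 : IsOpen (Subtype.val ⁻¹' V : Set E) := hV.preimage continuous_subtype_val
  obtain ⟨O, hO, hOV⟩ := he.isInducing.isOpen_iff.1 h3
  have h4 : t ∈ O := by
    rw [← hy]
    show y ∈ e ⁻¹' O
    rw [hOV]
    exact hyV
  obtain ⟨J, u, hu, hJ⟩ := isOpen_pi_iff.1 hO t h4
  refine key J V (neg_of_isOpen hV hVU) fun z => ?_
  by_cases hz : ∃ i ∈ J, e z i ≠ t i
  · exact Or.inr hz
  · left
    push Not at hz
    have h5 : z ∈ e ⁻¹' O := hJ (show e z ∈ (J : Set ι).pi u from fun i hi => by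
      rw [hz i hi]
      exact (hu i hi).2)
    rw [hOV] at h5
    exact h5

/-- Relative sums. -/
theorem neg_sum [CompletelyNormalSpace X] {U : Ultrafilter X} {I : Type v} {E : I → Set X}
    (hm : ∀ W : Ultrafilter I, CountableInterFilter (W : Filter I) → ∃ i, W = pure i)
    (hd : Pairwise (fun i j => Disjoint (E i) (E j)))
    (ho : ∀ i, ∃ O : Set X, IsOpen O ∧ O ∩ (⋃ j, E j) = E i) (hE : ∀ i, Neg U (E i)) :
    Neg U (⋃ i, E i) := by
  by_contra hcon
  -- separation of complementary subfamilies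
  have hsep : ∀ S : Set I, Disjoint (closure (⋃ i ∈ S, E i)) (⋃ i ∈ Sᶜ, E i) := by
    intro S
    rw [Set.disjoint_left]
    intro z hz hz2
    obtain ⟨j, hj, hzj⟩ := mem_iUnion₂.1 hz2
    obtain ⟨O, hO, hOE⟩ := ho j
    have h1 : z ∈ O := by
      rw [← hOE] at hzj
      exact hzj.1
    obtain ⟨w, hw, hw2⟩ := mem_closure_iff.1 hz O hO h1
    obtain ⟨i, hi, hwi⟩ := mem_iUnion₂.1 hw2
    have h2 : w ∈ E j := by
      rw [← hOE]
      exact ⟨hw, mem_iUnion.2 ⟨i, hwi⟩⟩
    have hij : i ≠ j := fun h => hj (h ▸ hi)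
    exact Set.disjoint_left.1 (hd hij) hwi h2
  have hor : ∀ S : Set I, Neg U (⋃ i ∈ S, E i) ∨ Neg U (⋃ i ∈ Sᶜ, E i) := by
    intro S
    refine neg_or (hsep S) ?_
    have h1 := hsep Sᶜ
    rw [compl_compl] at h1
    exact h1.symm
  have hall : ∀ S : Set I, Neg U (⋃ i ∈ S, E i) → Neg U (⋃ i ∈ Sᶜ, E i) → False := by
    intro S h1 h2
    refine hcon (neg_mono ?_ (neg_union h1 h2))
    intro z hz
    obtain ⟨i, hi⟩ := mem_iUnion.1 hz
    by_cases h : i ∈ S
    · exact Or.inl (mem_iUnion₂.2 ⟨i, h, hi⟩)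
    · exact Or.inr (mem_iUnion₂.2 ⟨i, h, hi⟩)
  let F : Filter I := Filter.ofCountableInter {S | Neg U (⋃ i ∈ Sᶜ, E i)} (by
      intro T hT hTs
      rcases T.eq_empty_or_nonempty with h0 | h0
      · subst h0
        simp only [sInter_empty, mem_ofPred_eq, compl_univ, mem_empty_iff_false, iUnion_of_empty,
          iUnion_empty]
        exact neg_empty
      · obtain ⟨g, rfl⟩ := hT.exists_eq_range h0
        refine neg_mono ?_ (neg_iUnion fun n : ℕ => hTs (mem_range_self n))
        intro z hz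
        obtain ⟨i, hi, hzi⟩ := mem_iUnion₂.1 hz
        rw [mem_compl_iff, mem_sInter] at hi
        push Not at hi
        obtain ⟨_, ⟨n, rfl⟩, hn⟩ := hi
        exact mem_iUnion.2 ⟨n, mem_iUnion₂.2 ⟨i, hn, hzi⟩⟩) (by
      intro S T hS hST
      refine neg_mono ?_ (show Neg U (⋃ i ∈ Sᶜ, E i) from hS)
      intro z hz
      obtain ⟨i, hi, hzi⟩ := mem_iUnion₂.1 hz
      exact mem_iUnion₂.2 ⟨i, fun h => hi (hST h), hzi⟩)
  have hF : ∀ S : Set I, S ∈ F ↔ Neg U (⋃ i ∈ Sᶜ, E i) := fun S => Iff.rfl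
  have hc : CountableInterFilter F := inferInstance
  let W : Ultrafilter I := Ultrafilter.ofComplNotMemIff F (by
    intro S
    rw [hF, hF, compl_compl]
    constructor
    · intro h
      exact (hor S).resolve_left h
    · intro h1 h2
      exact hall S h2 h1)
  have hW : CountableInterFilter (W : Filter I) := hc
  obtain ⟨i, hi⟩ := hm W hW
  have h1 : ({i} : Set I) ∈ W := by
    rw [hi]
    exact Filter.mem_pure.2 rfl
  have h2 : Neg U (⋃ j ∈ ({i} : Set I)ᶜ, E j) := h1
  refine hall {i} ?_ h2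
  simpa using hE i

end Pool.Agent.Helper52_HN
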