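import Pool.Agent.Helper52_HN.Main

/-!
# Weakly theta-refinable complements of points
-/

set_option autoImplicit false

open Set Filter Topology
open Pool.Agent.Helper78_Biseq

namespace Pool.Agent.Helper52_HN

universe v

variable {X : Type v} [TopologicalSpace X]

/-- The union of disjoint classes cut out by a point finite family of relatively small open sets. -/
theorem tame_classes {x : X} (hm : ∀ U : Ultrafilter X, CountableInterFilter (U : Filter X) →
    ∃ x, U = pure x) (V : Set (Set X)) (hV : ∀ W ∈ V, IsOpen W ∧ x ∉ closure W) (k : ℕ) :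
    Tame x {z : X | {W | W ∈ V ∧ z ∈ W}.Finite ∧ {W | W ∈ V ∧ z ∈ W}.Nonempty ∧
      {W | W ∈ V ∧ z ∈ W}.ncard = k} := by
  classical
  obtain ⟨tr, htr⟩ : ∃ tr : X → Set (Set X), ∀ z, tr z = {W | W ∈ V ∧ z ∈ W} := ⟨_, fun z => rfl⟩
  simp only [← htr]
  let r : Setoid X := Setoid.ker tr
  obtain ⟨S, hS⟩ : ∃ S : Set X, S = {z : X | (tr z).Finite ∧ (tr z).Nonempty ∧ (tr z).ncard = k} :=
    ⟨_, rfl⟩
  rw [← hS]
  have hmem : ∀ z, z ∈ S ↔ (tr z).Finite ∧ (tr z).Nonempty ∧ (tr z).ncard = k := fun z => by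
    rw [hS]
    rfl
  let E : Quotient r → Set X := fun l => {z | z ∈ S ∧ Quotient.mk r z = l}
  have hU : S = ⋃ l, E l := by
    ext z
    rw [mem_iUnion]
    constructor
    · intro hz
      exact ⟨Quotient.mk r z, hz, rfl⟩
    · rintro ⟨l, hl⟩
      exact hl.1
  have heq : ∀ z w : X, Quotient.mk r z = Quotient.mk r w ↔ tr z = tr w := by
    intro z w
    rw [Quotient.eq]
    rfl
  rw [hU]
  refine Tame.sum (Quotient r) E (fun W hW => quotient_principal hm W hW) ?_ ?_ ?_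
  · intro i j hij
    rw [Set.disjoint_left]
    intro z hz hz2
    exact hij (hz.2.symm.trans hz2.2)
  · intro l
    by_cases hne : (E l).Nonempty
    · obtain ⟨z, hzS, hzl⟩ := hne
      obtain ⟨hf, _, hk⟩ := (hmem z).1 hzS
      refine ⟨⋂ W ∈ tr z, W, hf.isOpen_biInter fun W hW => ?_, ?_⟩
      · rw [htr] at hW
        exact (hV W hW.1).1
      · rw [← hU]
        ext w
        constructor
        · rintro ⟨hw, hwS⟩
          refine ⟨hwS, ?_⟩
          rw [← hzl, heq]
          obtain ⟨hf', _, hk'⟩ := (hmem w).1 hwS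
          have hsub : tr z ⊆ tr w := by
            intro W hW
            have h1 : w ∈ W := mem_iInter₂.1 hw W hW
            rw [htr] at hW ⊢
            exact ⟨hW.1, h1⟩
          exact (Set.eq_of_subset_of_ncard_le hsub (by rw [hk, hk']) hf').symm
        · rintro ⟨hwS, hwl⟩
          have h1 : tr w = tr z := (heq w z).1 (hwl.trans hzl.symm)
          refine ⟨mem_iInter₂.2 fun W hW => ?_, hwS⟩
          rw [← h1, htr] at hW
          exact hW.2
    · refine ⟨∅, isOpen_empty, ?_⟩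
      rw [empty_inter, Set.not_nonempty_iff_eq_empty.1 hne]
  · intro l
    refine Tame.small _ ?_
    by_cases hne : (E l).Nonempty
    · obtain ⟨z, hzS, hzl⟩ := hne
      obtain ⟨_, ⟨W, hW⟩, _⟩ := (hmem z).1 hzS
      have h1 : E l ⊆ W := by
        rintro w ⟨hwS, hwl⟩
        have h2 : tr w = tr z := (heq w z).1 (hwl.trans hzl.symm)
        rw [← h2, htr] at hW
        exact hW.2
      rw [htr] at hW
      exact fun hx => (hV W hW.1).2 (closure_mono h1 hx)
    · rw [Set.not_nonempty_iff_eq_empty.1 hne, closure_empty]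
      exact fun h => h

theorem tame_of_weaklyThetaRefinable [T2Space X] [RegularSpace X]
    (hm : ∀ U : Ultrafilter X, CountableInterFilter (U : Filter X) → ∃ x, U = pure x) (x : X)
    (hx : WeaklyThetaRefinable {z : X // z ≠ x}) : Tame x ({x}ᶜ : Set X) := by
  have hopen : IsOpen {z : X | z ≠ x} := isOpen_compl_singleton
  obtain ⟨V, hV, hy⟩ := hx {O | IsOpen O ∧ x ∉ closure (Subtype.val '' O)} (fun O hO => hO.1) (by
    rw [eq_univ_iff_forall]
    intro y
    obtain ⟨O, O', hO, hO', hyO, hxO, hd⟩ := t2_separation y.2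
    refine mem_sUnion.2 ⟨Subtype.val ⁻¹' O, ⟨hO.preimage continuous_subtype_val, ?_⟩, hyO⟩
    intro hcl
    obtain ⟨w, hw, hw2⟩ := mem_closure_iff.1 hcl O' hO' hxO
    obtain ⟨w', hw', rfl⟩ := hw2
    exact Set.disjoint_left.1 hd hw' hw)
  have h1 : ∀ n k : ℕ, Tame x {z : X | {W | W ∈ (image Subtype.val) '' (V n) ∧ z ∈ W}.Finite ∧
      {W | W ∈ (image Subtype.val) '' (V n) ∧ z ∈ W}.Nonempty ∧
      {W | W ∈ (image Subtype.val) '' (V n) ∧ z ∈ W}.ncard = k} := by
    intro n k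
    refine tame_classes hm _ ?_ k
    rintro _ ⟨W, hW, rfl⟩
    obtain ⟨ho, O, hO, hs⟩ := hV n W hW
    refine ⟨hopen.isOpenMap_subtype_val W ho, fun h => hO.2 (closure_mono (image_mono hs) h)⟩
  refine Tame.mono _ _ ?_ (Tame.union _ fun n => Tame.union _ fun k => h1 n k)
  intro z hz
  obtain ⟨n, hf, hne⟩ := hy ⟨z, hz⟩
  have heq : {W | W ∈ (image Subtype.val) '' (V n) ∧ z ∈ W} =
      (image Subtype.val) '' {W | W ∈ V n ∧ (⟨z, hz⟩ : {z : X // z ≠ x}) ∈ W} := by
    ext W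
    constructor
    · rintro ⟨⟨W', hW', rfl⟩, w, hw, hwz⟩
      have : w = ⟨z, hz⟩ := Subtype.ext hwz
      exact ⟨W', ⟨hW', this ▸ hw⟩, rfl⟩
    · rintro ⟨W', ⟨hW', hz'⟩, rfl⟩
      exact ⟨⟨W', hW', rfl⟩, ⟨z, hz⟩, hz', rfl⟩
  refine mem_iUnion.2 ⟨n, mem_iUnion.2 ⟨_, ?_, ?_, rfl⟩⟩
  · rw [heq]
    exact hf.image _
  · rw [heq]
    exact hne.image _

end Pool.Agent.Helper52_HN
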