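import Pool.Agent.Helper52_HN.Main

/-!
# Weakly theta-refinable, countably paracompact, normal complements of points
-/

set_option autoImplicit false

open Set Filter Topology
open Pool.Agent.Helper78_Biseq

namespace Pool.Agent.Helper52_HN

universe v

/-- Sums in a sigma-ideal. -/
theorem ideal_sum {Y I : Type v} {N : Set Y → Prop} {E : I → Set Y}
    (h0 : N ∅) (hmono : ∀ A B : Set Y, A ⊆ B → N B → N A)
    (hU : ∀ A : ℕ → Set Y, (∀ n, N (A n)) → N (⋃ n, A n))
    (hm : ∀ W : Ultrafilter I, CountableInterFilter (W : Filter I) → ∃ i, W = pure i)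
    (hor : ∀ S : Set I, N (⋃ i ∈ S, E i) ∨ N (⋃ i ∈ Sᶜ, E i)) (hE : ∀ i, N (E i)) :
    N (⋃ i, E i) := by
  by_contra hcon
  have hunion : ∀ A B : Set Y, N A → N B → N (A ∪ B) := by
    intro A B hA hB
    refine hmono _ _ ?_ (hU (fun n => if n = 0 then A else B) fun n => ?_)
    · rintro z (hz | hz)
      · exact mem_iUnion.2 ⟨0, by simpa using hz⟩
      · exact mem_iUnion.2 ⟨1, by simpa using hz⟩
    · split_ifs
      · exact hA
      · exact hB
  have hall : ∀ S : Set I, N (⋃ i ∈ S, E i) → N (⋃ i ∈ Sᶜ, E i) → False := by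
    intro S h1 h2
    refine hcon (hmono _ _ ?_ (hunion _ _ h1 h2))
    intro z hz
    obtain ⟨i, hi⟩ := mem_iUnion.1 hz
    by_cases h : i ∈ S
    · exact Or.inl (mem_iUnion₂.2 ⟨i, h, hi⟩)
    · exact Or.inr (mem_iUnion₂.2 ⟨i, h, hi⟩)
  let F : Filter I := Filter.ofCountableInter {S | N (⋃ i ∈ Sᶜ, E i)} (by
      intro T hT hTs
      rcases T.eq_empty_or_nonempty with h1 | h1
      · subst h1
        simp only [sInter_empty, mem_ofPred_eq, compl_univ, mem_empty_iff_false, iUnion_of_empty,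
          iUnion_empty]
        exact h0
      · obtain ⟨g, rfl⟩ := hT.exists_eq_range h1
        refine hmono _ _ ?_ (hU _ fun n : ℕ => hTs (mem_range_self n))
        intro z hz
        obtain ⟨i, hi, hzi⟩ := mem_iUnion₂.1 hz
        rw [mem_compl_iff, mem_sInter] at hi
        push Not at hi
        obtain ⟨_, ⟨n, rfl⟩, hn⟩ := hi
        exact mem_iUnion.2 ⟨n, mem_iUnion₂.2 ⟨i, hn, hzi⟩⟩) (by
      intro S T hS hST
      refine hmono _ _ ?_ (show N (⋃ i ∈ Sᶜ, E i) from hS)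
      intro z hz
      obtain ⟨i, hi, hzi⟩ := mem_iUnion₂.1 hz
      exact mem_iUnion₂.2 ⟨i, fun h => hi (hST h), hzi⟩)
  have hF : ∀ S : Set I, S ∈ F ↔ N (⋃ i ∈ Sᶜ, E i) := fun S => Iff.rfl
  have hc : CountableInterFilter F := inferInstance
  let W : Ultrafilter I := Ultrafilter.ofComplNotMemIff F (by
    intro S
    rw [hF, hF, compl_compl]
    constructor
    · intro h
      exact (hor S).resolve_left h
    · intro h1 h2
      exact hall S h2 h1)
  have hW : CountableInterFilter (W : Filter I) := hc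
  obtain ⟨i, hi⟩ := hm W hW
  have h1 : ({i} : Set I) ∈ W := by
    rw [hi]
    exact Filter.mem_pure.2 rfl
  have h2 : N (⋃ j ∈ ({i} : Set I)ᶜ, E j) := h1
  refine hall {i} ?_ h2
  simpa using hE i

/-- The points at which a family of open sets has order at most `k` form a closed set. -/
theorem isClosed_order {Y : Type v} [TopologicalSpace Y] (V : Set (Set Y))
    (hV : ∀ W ∈ V, IsOpen W) (k : ℕ) :
    IsClosed {y : Y | {W | W ∈ V ∧ y ∈ W}.Finite ∧ {W | W ∈ V ∧ y ∈ W}.ncard ≤ k} := by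
  rw [← isOpen_compl_iff, isOpen_iff_mem_nhds]
  intro y hy
  have h1 : ∃ t : Finset (Set Y), (t : Set (Set Y)) ⊆ {W | W ∈ V ∧ y ∈ W} ∧ t.card = k + 1 := by
    by_cases hf : {W | W ∈ V ∧ y ∈ W}.Finite
    · have h2 : k < {W | W ∈ V ∧ y ∈ W}.ncard := by
        by_contra hle
        exact hy ⟨hf, not_lt.1 hle⟩
      rw [Set.ncard_eq_toFinset_card _ hf] at h2
      obtain ⟨t, ht, hc⟩ := Finset.exists_subset_card_eq (n := k + 1) (s := hf.toFinset) h2
      refine ⟨t, fun W hW => ?_, hc⟩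
      have h3 := ht hW
      rw [Set.Finite.mem_toFinset] at h3
      exact h3
    · exact (show {W | W ∈ V ∧ y ∈ W}.Infinite from hf).exists_subset_card_eq (k + 1)
  obtain ⟨t, ht, hc⟩ := h1
  have h2 : IsOpen (⋂ W ∈ t, W) := isOpen_biInter_finset fun W hW => hV W (ht hW).1
  refine mem_of_superset (h2.mem_nhds (mem_iInter₂.2 fun W hW => (ht hW).2)) ?_
  rintro z hz ⟨hf, hn⟩
  have h3 : (t : Set (Set Y)) ⊆ {W | W ∈ V ∧ z ∈ W} := fun W hW =>
    ⟨(ht hW).1, mem_iInter₂.1 hz W hW⟩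
  have h4 := Set.ncard_le_ncard h3 hf
  rw [Set.ncard_coe_finset, hc] at h4
  omega

/-- The layers of a family of negligible open sets whose union is co-negligible. -/
theorem ideal_layer {Y : Type v} [TopologicalSpace Y] {N : Set Y → Prop}
    (h0 : N ∅) (hmono : ∀ A B : Set Y, A ⊆ B → N B → N A)
    (hU : ∀ A : ℕ → Set Y, (∀ n, N (A n)) → N (⋃ n, A n))
    (hor : ∀ A B : Set Y, IsClosed A → IsClosed B → Disjoint A B → N A ∨ N B)
    (hcl : ∀ S : Set Y, N S → ∃ T : ℕ → Set Y, (∀ m, IsClosed (T m)) ∧ (∀ m, N (T m)ᶜ) ∧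
      Disjoint S (⋂ m, T m))
    (hm : ∀ (r : Setoid Y) (W : Ultrafilter (Quotient r)),
      CountableInterFilter (W : Filter (Quotient r)) → ∃ i, W = pure i)
    (V : Set (Set Y)) (hV : ∀ W ∈ V, IsOpen W ∧ N W) (hc : N (⋃₀ V)ᶜ) (k : ℕ) :
    N {y : Y | {W | W ∈ V ∧ y ∈ W}.Finite ∧ {W | W ∈ V ∧ y ∈ W}.ncard = k} := by
  classical
  induction k using Nat.strong_induction_on with
  | _ k ih =>
  rcases Nat.eq_zero_or_pos k with hk | hk
  · subst hk
    refine hmono _ _ ?_ hc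
    rintro y ⟨hf, hn⟩ hy
    obtain ⟨W, hW, hyW⟩ := hy
    have h1 := (Set.ncard_eq_zero hf).1 hn
    have h2 : W ∈ {W | W ∈ V ∧ y ∈ W} := ⟨hW, hyW⟩
    rw [h1] at h2
    exact h2
  obtain ⟨tr, htr⟩ : ∃ tr : Y → Set (Set Y), ∀ z, tr z = {W | W ∈ V ∧ z ∈ W} := ⟨_, fun z => rfl⟩
  simp only [← htr] at ih ⊢
  have hlow : N (⋃ j : ℕ, {y : Y | (tr y).Finite ∧ (tr y).ncard = j ∧ j < k}) := by
    refine hU _ fun j => ?_
    by_cases hj : j < k
    · refine hmono _ _ ?_ (ih j hj)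
      rintro y ⟨h1, h2, _⟩
      exact ⟨h1, h2⟩
    · refine hmono _ _ ?_ h0
      rintro y ⟨_, _, h3⟩
      exact hj h3
  obtain ⟨T, hT, hTN, hTd⟩ := hcl _ hlow
  obtain ⟨L, hL⟩ : ∃ L : Set Y, L = {y : Y | (tr y).Finite ∧ (tr y).ncard ≤ k} ∩ ⋂ m, T m :=
    ⟨_, rfl⟩
  have hLc : IsClosed L := by
    rw [hL]
    refine IsClosed.inter ?_ (isClosed_iInter hT)
    simp only [htr]
    exact isClosed_order V (fun W hW => (hV W hW).1) k
  have hLk : ∀ y ∈ L, (tr y).Finite ∧ (tr y).ncard = k := by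
    intro y hy
    rw [hL] at hy
    refine ⟨hy.1.1, ?_⟩
    by_contra hne
    refine Set.disjoint_left.1 hTd (mem_iUnion.2 ⟨(tr y).ncard, hy.1.1, rfl, ?_⟩) hy.2
    exact lt_of_le_of_ne hy.1.2 hne
  have hTN' : N (⋃ m, (T m)ᶜ) := hU _ hTN
  suffices hNL : N L by
    refine hmono _ _ ?_ (hU (fun n => if n = 0 then L else ⋃ m, (T m)ᶜ) fun n => ?_)
    · rintro y ⟨hf, hn⟩
      by_cases hy : y ∈ ⋂ m, T m
      · refine mem_iUnion.2 ⟨0, ?_⟩
        rw [if_pos rfl, hL]
        exact ⟨⟨hf, hn.le⟩, hy⟩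
      · refine mem_iUnion.2 ⟨1, ?_⟩
        rw [if_neg one_ne_zero, ← compl_iInter]
        exact hy
    · split_ifs
      · exact hNL
      · exact hTN'
  let r : Setoid Y := Setoid.ker tr
  have heq : ∀ z w : Y, Quotient.mk r z = Quotient.mk r w ↔ tr z = tr w := by
    intro z w
    rw [Quotient.eq]
    rfl
  let E : Quotient r → Set Y := fun l => {z | z ∈ L ∧ Quotient.mk r z = l}
  have hUn : L = ⋃ l, E l := by
    ext z
    rw [mem_iUnion]
    exact ⟨fun hz => ⟨Quotient.mk r z, hz, rfl⟩, fun ⟨l, hl⟩ => hl.1⟩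
  have hcE : ∀ S : Set (Quotient r), IsClosed (⋃ l ∈ S, E l) := by
    intro S
    have h1 : (⋃ l ∈ S, E l) = L ∩ (⋃ z ∈ {z | z ∈ L ∧ Quotient.mk r z ∉ S}, ⋂ W ∈ tr z, W)ᶜ := by
      ext w
      constructor
      · intro hw
        obtain ⟨l, hl, hwL, hwl⟩ := mem_iUnion₂.1 hw
        refine ⟨hwL, ?_⟩
        intro hw2
        obtain ⟨z, ⟨hzL, hzS⟩, hwz⟩ := mem_iUnion₂.1 hw2
        have hsub : tr z ⊆ tr w := by
          intro W hW
          have h2 : w ∈ W := mem_iInter₂.1 hwz W hW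
          rw [htr] at hW ⊢
          exact ⟨hW.1, h2⟩
        have h3 : tr z = tr w := Set.eq_of_subset_of_ncard_le hsub
          (by rw [(hLk z hzL).2, (hLk w hwL).2]) (hLk w hwL).1
        refine hzS ?_
        rw [(heq z w).2 h3, hwl]
        exact hl
      · rintro ⟨hwL, hw2⟩
        by_contra hcon
        refine hw2 (mem_iUnion₂.2 ⟨w, ⟨hwL, fun hwS => hcon ?_⟩, mem_iInter₂.2 fun W hW => ?_⟩)
        · exact mem_iUnion₂.2 ⟨Quotient.mk r w, hwS, hwL, rfl⟩
        · rw [htr] at hW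
          exact hW.2
    rw [h1]
    refine hLc.inter (IsOpen.isClosed_compl (isOpen_biUnion fun z hz => ?_))
    refine (hLk z hz.1).1.isOpen_biInter fun W hW => ?_
    rw [htr] at hW
    exact (hV W hW.1).1
  rw [hUn]
  refine ideal_sum h0 hmono hU (hm r) (fun S => ?_) (fun l => ?_)
  · refine hor _ _ (hcE S) (hcE Sᶜ) ?_
    rw [Set.disjoint_left]
    intro z hz hz2
    obtain ⟨l, hl, _, h1⟩ := mem_iUnion₂.1 hz
    obtain ⟨l', hl', _, h2⟩ := mem_iUnion₂.1 hz2
    rw [← h1] at hl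
    rw [← h2] at hl'
    exact hl' hl
  · by_cases hne : (E l).Nonempty
    · obtain ⟨z, hzL, hzl⟩ := hne
      obtain ⟨hf, hn⟩ := hLk z hzL
      have h1 : (tr z).Nonempty := by
        rw [← Set.ncard_pos hf, hn]
        exact hk
      obtain ⟨W, hW⟩ := h1
      have h2 : W ∈ V := by
        rw [htr] at hW
        exact hW.1
      refine hmono _ _ ?_ (hV W h2).2
      rintro w ⟨hwL, hwl⟩
      have h3 : tr w = tr z := (heq w z).1 (hwl.trans hzl.symm)
      rw [← h3, htr] at hW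
      exact hW.2
    · rw [Set.not_nonempty_iff_eq_empty.1 hne]
      exact h0

/-- The whole space is negligible. -/
theorem ideal_univ {Y : Type v} [TopologicalSpace Y] [NormalSpace Y] {N : Set Y → Prop}
    (h0 : N ∅) (hmono : ∀ A B : Set Y, A ⊆ B → N B → N A)
    (hU : ∀ A : ℕ → Set Y, (∀ n, N (A n)) → N (⋃ n, A n))
    (hor : ∀ A B : Set Y, IsClosed A → IsClosed B → Disjoint A B → N A ∨ N B)
    (hcl : ∀ S : Set Y, N S → ∃ T : ℕ → Set Y, (∀ m, IsClosed (T m)) ∧ (∀ m, N (T m)ᶜ) ∧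
      Disjoint S (⋂ m, T m))
    (hm : ∀ (r : Setoid Y) (W : Ultrafilter (Quotient r)),
      CountableInterFilter (W : Filter (Quotient r)) → ∃ i, W = pure i)
    (hloc : ∀ y : Y, ∃ O : Set Y, IsOpen O ∧ y ∈ O ∧ N O)
    (hw : WeaklyThetaRefinable Y) (hcp : CountablyParacompact Y) : N univ := by
  classical
  obtain ⟨V, hV, hy⟩ := hw {O | IsOpen O ∧ N O} (fun O hO => hO.1) (by
    rw [eq_univ_iff_forall]
    intro y
    obtain ⟨O, hO, hyO, hNO⟩ := hloc y
    exact mem_sUnion.2 ⟨O, ⟨hO, hNO⟩, hyO⟩)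
  have hV' : ∀ n, ∀ W ∈ V n, IsOpen W ∧ N W := by
    intro n W hW
    obtain ⟨ho, O, hO, hs⟩ := hV n W hW
    exact ⟨ho, hmono _ _ hs hO.2⟩
  have hVo : ∀ n, IsOpen (⋃₀ V n) := fun n => isOpen_sUnion fun W hW => (hV' n W hW).1
  have hgood : ∀ n, N (⋃₀ V n)ᶜ → N {y : Y | {W | W ∈ V n ∧ y ∈ W}.Finite} := by
    intro n hn
    refine hmono _ _ ?_ (hU _ fun k => ideal_layer h0 hmono hU hor hcl hm (V n) (hV' n) hn k)
    intro y hy
    exact mem_iUnion.2 ⟨_, hy, rfl⟩
  have hK : N {y : Y | ∀ n, ¬ N (⋃₀ V n)ᶜ → y ∉ ⋃₀ V n} := by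
    refine hmono _ _ ?_ (hU (fun n => if N (⋃₀ V n)ᶜ then {y : Y | {W | W ∈ V n ∧ y ∈ W}.Finite}
      else ∅) fun n => ?_)
    · intro y hyK
      obtain ⟨n, hf, W, hW⟩ := hy y
      have h1 : N (⋃₀ V n)ᶜ := by
        by_contra hcon
        exact hyK n hcon (mem_sUnion.2 ⟨W, hW.1, hW.2⟩)
      refine mem_iUnion.2 ⟨n, ?_⟩
      rw [if_pos h1]
      exact hf
    · split_ifs with h
      · exact hgood n h
      · exact h0
  obtain ⟨T, hT, hTN, hTd⟩ := hcl _ hK
  obtain ⟨u, hu⟩ : ∃ u : ℕ → Set Y, ∀ j, u j = if j % 2 = 0 then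
      (if N (⋃₀ V (j / 2))ᶜ then ∅ else ⋃₀ V (j / 2)) else (T (j / 2))ᶜ := ⟨_, fun j => rfl⟩
  have huo : ∀ j, IsOpen (u j) := by
    intro j
    rw [hu]
    split_ifs
    · exact isOpen_empty
    · exact hVo _
    · exact (hT _).isOpen_compl
  have huU : ⋃ j, u j = univ := by
    rw [eq_univ_iff_forall]
    intro y
    by_cases hyK : ∀ n, ¬ N (⋃₀ V n)ᶜ → y ∉ ⋃₀ V n
    · have h1 : y ∉ ⋂ m, T m := fun h => Set.disjoint_left.1 hTd hyK h
      rw [mem_iInter] at h1
      push Not at h1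
      obtain ⟨m, hm'⟩ := h1
      refine mem_iUnion.2 ⟨2 * m + 1, ?_⟩
      rw [hu, if_neg (by omega), show (2 * m + 1) / 2 = m by omega]
      exact hm'
    · push Not at hyK
      obtain ⟨n, hn, hyn⟩ := hyK
      refine mem_iUnion.2 ⟨2 * n, ?_⟩
      rw [hu, if_pos (by omega), show 2 * n / 2 = n by omega, if_neg hn]
      exact hyn
  obtain ⟨I, w, wo, wU, wf, ws⟩ := hcp u huo huU
  choose a ha' using ws
  obtain ⟨v, hv⟩ : ∃ v : ℕ → Set Y, ∀ n, v n = ⋃ i : {i : I // a i = n}, w i.1 :=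
    ⟨_, fun n => rfl⟩
  have vo : ∀ n, IsOpen (v n) := fun n => by
    rw [hv]
    exact isOpen_iUnion fun i => wo i.1
  have vs : ∀ n, v n ⊆ u n := fun n => by
    rw [hv]
    refine iUnion_subset fun i => ?_
    have h1 := ha' i.1
    rwa [i.2] at h1
  have vU : ⋃ n, v n = univ := by
    rw [eq_univ_iff_forall]
    intro y
    obtain ⟨i, hi⟩ := mem_iUnion.1 (wU.symm ▸ mem_univ y : y ∈ ⋃ i, w i)
    refine mem_iUnion.2 ⟨a i, ?_⟩
    rw [hv]
    exact mem_iUnion.2 ⟨⟨i, rfl⟩, hi⟩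
  have vf : ∀ y, {n | y ∈ v n}.Finite := by
    intro y
    refine ((wf.point_finite y).image a).subset ?_
    intro n hn
    rw [mem_ofPred_eq, hv] at hn
    obtain ⟨i, hi⟩ := mem_iUnion.1 hn
    exact ⟨i.1, hi, i.2⟩
  obtain ⟨H, HU, Hc, Hs⟩ := exists_iUnion_eq_closed_subset vo vf vU
  rw [← HU]
  refine hU _ fun j => ?_
  have h1 : H j ⊆ u j := (Hs j).trans (vs j)
  rw [hu] at h1
  split_ifs at h1 with h2 h3
  · exact hmono _ _ h1 h0
  · refine (hor (H j) (⋃₀ V (j / 2))ᶜ (Hc j) (hVo _).isClosed_compl ?_).resolve_right h3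
    rw [Set.disjoint_left]
    intro z hz hz2
    exact hz2 (h1 hz)
  · exact hmono _ _ h1 (hTN _)

/-- Complements of points which are normal, countably paracompact and weakly theta-refinable. -/
theorem neg_of_weaklyThetaRefinable {X : Type v} [TopologicalSpace X] [T2Space X] [CompactSpace X]
    (hm : ∀ U : Ultrafilter X, CountableInterFilter (U : Filter X) → ∃ x, U = pure x) (x : X)
    [NormalSpace {z : X // z ≠ x}] (hcp : CountablyParacompact {z : X // z ≠ x})
    (hw : WeaklyThetaRefinable {z : X // z ≠ x}) {U : Ultrafilter X} (hU : (U : Filter X) ≤ 𝓝 x) :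
    Neg U ({x}ᶜ : Set X) := by
  have hopen : IsOpen {z : X | z ≠ x} := isOpen_compl_singleton
  have hsmall : ∀ E : Set X, x ∉ closure E → Neg U E := by
    intro E hx
    have h1 : (closure E)ᶜ ∈ 𝓝 x := isClosed_closure.isOpen_compl.mem_nhds hx
    obtain ⟨t, ht, htc, hts⟩ := exists_mem_nhds_isClosed_subset h1
    refine ⟨fun _ => t, fun _ => hU ht, ?_⟩
    rw [iInter_const, htc.closure_eq, Set.disjoint_left]
    intro z hz hz2
    exact hts hz2 (subset_closure hz)
  have h := ideal_univ (Y := {z : X // z ≠ x}) (N := fun S => Neg U (Subtype.val '' S))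
    (by rw [image_empty]; exact neg_empty)
    (fun A B h1 h2 => neg_mono (image_mono h1) h2)
    (fun A h1 => by rw [image_iUnion]; exact neg_iUnion h1)
    (fun A B h1 h2 h3 => @neg_or_of_isOpen X _ U {z : X | z ≠ x} hopen
      (inferInstanceAs (NormalSpace {z : X // z ≠ x})) A B h1 h2 h3)
    (fun S hS => by
      obtain ⟨C, hC, hd⟩ := hS
      refine ⟨fun m => Subtype.val ⁻¹' closure (C m), fun m =>
        isClosed_closure.preimage continuous_subtype_val, fun m => ⟨fun _ => C m, fun _ => hC m, ?_⟩,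
        ?_⟩
      · rw [iInter_const, Set.disjoint_left]
        rintro _ ⟨y, hy, rfl⟩ hz
        exact hy hz
      · rw [Set.disjoint_left]
        intro y hy hy2
        refine Set.disjoint_left.1 hd (mem_image_of_mem _ hy) (mem_iInter.2 fun m => ?_)
        exact mem_iInter.1 hy2 m)
    (fun r W hW => by
      have h1 : CountableInterFilter ((W.map Quotient.out).map (Subtype.val : {z : X // z ≠ x} → X) :
          Filter X) := by
        rw [Ultrafilter.coe_map, Ultrafilter.coe_map]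
        infer_instance
      obtain ⟨y, hy⟩ := hm _ h1
      have h2 : ({y} : Set X) ∈ ((W.map Quotient.out).map (Subtype.val : {z : X // z ≠ x} → X)) := by
        rw [hy]
        exact Filter.mem_pure.2 rfl
      rw [Ultrafilter.mem_map, Ultrafilter.mem_map] at h2
      obtain ⟨l, hl⟩ := W.nonempty_of_mem h2
      refine ⟨l, ?_⟩
      have h3 : ({l} : Set (Quotient r)) ∈ W := by
        refine mem_of_superset h2 ?_
        intro l' hl'
        have h4 : (Quotient.out l' : {z : X // z ≠ x}) = Quotient.out l := by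
          apply Subtype.ext
          have h5 : ((Quotient.out l' : {z : X // z ≠ x}) : X) = y := hl'
          have h6 : ((Quotient.out l : {z : X // z ≠ x}) : X) = y := hl
          rw [h5, h6]
        have h7 := congrArg (Quotient.mk r) h4
        rw [Quotient.out_eq, Quotient.out_eq] at h7
        exact h7
      exact Ultrafilter.eq_of_le (by
        intro s hs
        exact mem_of_superset h3 (singleton_subset_iff.2 (Filter.mem_pure.1 hs))))
    (fun y => by
      obtain ⟨O, O', hO, hO', hyO, hxO, hd⟩ := t2_separation y.2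
      refine ⟨Subtype.val ⁻¹' O, hO.preimage continuous_subtype_val, hyO, hsmall _ fun hcl => ?_⟩
      obtain ⟨w, hw1, hw2⟩ := mem_closure_iff.1 hcl O' hO' hxO
      obtain ⟨w', hw', rfl⟩ := hw2
      exact Set.disjoint_left.1 hd hw' hw1)
    hw hcp
  have h2 : (Subtype.val '' (univ : Set {z : X // z ≠ x})) = ({x}ᶜ : Set X) := by
    rw [image_univ, Subtype.range_coe_subtype]
    rfl
  rw [← h2]
  exact h

end Pool.Agent.Helper52_HN
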